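import Pool.Agent.H97.ST.Targets
import Pool.Agent.H97.NF.Pair

/-!
# E7: passage times as maxima over finite families; Chebyshev bound
-/

open MeasureTheory ProbabilityTheory Filter Topology
open scoped ENNReal

namespace Pool.Agent.H97.E7

open Pool.Agent.H99.NS Pool.Agent.H22.LPP Pool.Agent.H97.NF Pool.Agent.H97.ST

/-- The sites of a path on the time interval `(s, t]`. -/
noncomputable def gr (s t : ℤ) (γ : ℤ → ℤ) : Finset Site :=
  (Finset.Ioc s t).image (fun r => (r, γ r))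

theorem sum_gr (s t : ℤ) (γ : ℤ → ℤ) (f : Site → ℝ) :
    ∑ x ∈ gr s t γ, f x = ∑ r ∈ Finset.Ioc s t, f (r, γ r) := by
  unfold gr
  rw [Finset.sum_image]
  intro a _ b _ h
  exact congrArg Prod.fst h

open Classical in
/-- The member of the family attached to a set of sites. -/
noncomputable def memb (S : Set Site) (out : Env) (G : Finset Site) : Finset Site × ℝ :=
  (G.filter (fun x => x ∈ S), ∑ x ∈ G.filter (fun x => x ∉ S), (out x : ℝ))

theorem valF_memb (S : Set Site) (out ω : Env) (s t : ℤ) (γ : ℤ → ℤ) :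
    valF (memb S out (gr s t γ)) ω = wt (glue S out ω) s t γ := by
  classical
  unfold valF memb wt
  rw [← sum_gr s t γ (fun x => ((glue S out ω x : ℕ) : ℝ)),
    ← Finset.sum_filter_add_sum_filter_not (gr s t γ) (fun x => x ∈ S), add_comm]
  have e1 : ∑ x ∈ (gr s t γ).filter (fun x => x ∈ S), (ω x : ℝ) =
      ∑ x ∈ (gr s t γ).filter (fun x => x ∈ S), ((glue S out ω x : ℕ) : ℝ) := by
    refine Finset.sum_congr rfl fun x hx => ?_
    rw [glue_of_mem _ _ (Finset.mem_filter.1 hx).2]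
  have e2 : ∑ x ∈ (gr s t γ).filter (fun x => x ∉ S), (out x : ℝ) =
      ∑ x ∈ (gr s t γ).filter (fun x => x ∉ S), ((glue S out ω x : ℕ) : ℝ) := by
    refine Finset.sum_congr rfl fun x hx => ?_
    rw [glue_of_notMem _ _ (Finset.mem_filter.1 hx).2]
  simp only
  rw [e1, e2]

theorem pf_FAM : T_FAM := by
  classical
  intro S out u v P hex _
  set B0 : Finset Site := (Finset.Ioc u.1 v.1) ×ˢ
    (Finset.Icc (u.2 - |v.1 - u.1|) (u.2 + |v.1 - u.1|)) with hB0
  have hsub : ∀ γ, Conn u v γ → gr u.1 v.1 γ ⊆ B0 := by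
    intro γ hγ x hx
    unfold gr at hx
    rw [Finset.mem_image] at hx
    obtain ⟨r, hr, rfl⟩ := hx
    rw [Finset.mem_Ioc] at hr
    rw [hB0, Finset.mem_product, Finset.mem_Ioc, Finset.mem_Icc]
    have h1 := path_lip hγ.1 le_rfl hr.1.le hr.2
    rw [hγ.2.1, abs_le] at h1
    have h2 : |v.1 - u.1| = v.1 - u.1 := abs_of_nonneg (by omega)
    rw [h2]
    refine ⟨hr, ?_, ?_⟩ <;> simp only <;> omega
  set Fam : Finset (Finset Site) := B0.powerset.filter
    (fun G => ∃ γ, Conn u v γ ∧ P γ ∧ gr u.1 v.1 γ = G) with hFam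
  set F : Finset (Finset Site × ℝ) := Fam.image (memb S out) with hFdef
  have hmem : ∀ γ, Conn u v γ → P γ → memb S out (gr u.1 v.1 γ) ∈ F := by
    intro γ h1 h2
    rw [hFdef, Finset.mem_image]
    exact ⟨_, Finset.mem_filter.2 ⟨Finset.mem_powerset.2 (hsub γ h1), γ, h1, h2, rfl⟩, rfl⟩
  have hF : F.Nonempty := by
    obtain ⟨γ, h1, h2⟩ := hex
    exact ⟨_, hmem γ h1 h2⟩
  have hform : ∀ a ∈ F, ∃ γ, Conn u v γ ∧ P γ ∧ a = memb S out (gr u.1 v.1 γ) := by
    intro a ha
    rw [hFdef, Finset.mem_image] at ha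
    obtain ⟨G, hG, rfl⟩ := ha
    obtain ⟨_, γ, h1, h2, rfl⟩ := Finset.mem_filter.1 hG
    exact ⟨γ, h1, h2, rfl⟩
  refine ⟨F, hF, fun ω => ?_, fun a ha => ?_, fun a ha x hx y hy hxy => ?_⟩
  · have hle : ∀ x ∈ {x | ∃ γ, Conn u v γ ∧ P γ ∧ x = wt (glue S out ω) u.1 v.1 γ},
        x ≤ supF F hF ω := by
      rintro x ⟨γ, h1, h2, rfl⟩
      rw [← valF_memb]
      exact Finset.le_sup' (fun a => valF a ω) (hmem γ h1 h2)
    apply le_antisymm
    · refine csSup_le ?_ hle
      obtain ⟨γ, h1, h2⟩ := hex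
      exact ⟨_, γ, h1, h2, rfl⟩
    · unfold supF
      refine Finset.sup'_le _ _ fun a ha => ?_
      obtain ⟨γ, h1, h2, rfl⟩ := hform a ha
      rw [valF_memb]
      exact le_csSup ⟨_, hle⟩ ⟨γ, h1, h2, rfl⟩
  · obtain ⟨γ, h1, h2, rfl⟩ := hform a ha
    refine ⟨fun x hx => (Finset.mem_filter.1 hx).2, fun x hx => ?_⟩
    have h3 := (Finset.mem_filter.1 hx).1
    unfold gr at h3
    rw [Finset.mem_image] at h3
    obtain ⟨r, hr, rfl⟩ := h3
    rw [Finset.mem_Ioc] at hr
    exact hr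
  · obtain ⟨γ, h1, h2, rfl⟩ := hform a ha
    have h3 := (Finset.mem_filter.1 hx).1
    have h4 := (Finset.mem_filter.1 hy).1
    unfold gr at h3 h4
    rw [Finset.mem_image] at h3 h4
    obtain ⟨r, _, rfl⟩ := h3
    obtain ⟨r', _, rfl⟩ := h4
    simp only at hxy
    rw [hxy]

theorem eA_glue (S : Set Site) (out : Env) (E : PEnv) :
    eA (glue S (diag out) E) = glue S out (eA E) := by
  funext x
  by_cases h : x ∈ S
  · simp only [eA, glue_of_mem _ _ h]
  · simp only [eA, glue_of_notMem _ _ h, diag]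

theorem eB_glue (S : Set Site) (out : Env) (E : PEnv) :
    eB (glue S (diag out) E) = glue S out (eB E) := by
  funext x
  by_cases h : x ∈ S
  · simp only [eB, glue_of_mem _ _ h]
  · simp only [eB, glue_of_notMem _ _ h, diag]

theorem pf_CHB (h1 : T_FAM) (h2 : T_PBI) : T_CHB := by
  classical
  intro q hq0 hq1
  obtain ⟨C, hC, hPB⟩ := h2 q hq0 hq1
  refine ⟨C, hC, fun S out u v P hP ρ r t₁ t₂ hρ ht hsup g hg => ?_⟩
  by_cases hex : ∃ γ, Conn u v γ ∧ P γ
  · obtain ⟨F, hF, hs, hF1, hF2⟩ := h1 S out u v P hex hP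
    simp only [eA_glue, eB_glue, hs]
    have hcount : ∀ a ∈ F, ((a.1.filter (fun x => ρ x ≠ 0)).card : ℝ) ≤ ((t₂ - t₁ : ℤ) : ℝ) := by
      intro a ha
      have hc : (a.1.filter (fun x => ρ x ≠ 0)).card ≤ (Finset.Ioc t₁ t₂).card := by
        refine Finset.card_le_card_of_injOn Prod.fst ?_ ?_
        · intro x hx
          have hx' := Finset.mem_filter.1 (Finset.mem_coe.1 hx)
          have h3 := (hF1 a ha).2 x hx'.1
          have h4 := hsup x hx'.2 h3.1 h3.2
          exact Finset.mem_coe.2 (Finset.mem_Ioc.2 h4)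
        · intro x hx y hy hxy
          have hx' := Finset.mem_filter.1 (Finset.mem_coe.1 hx)
          have hy' := Finset.mem_filter.1 (Finset.mem_coe.1 hy)
          exact hF2 a ha x hx'.1 y hy'.1 hxy
      rw [Int.card_Ioc] at hc
      have h5 : ((t₂ - t₁).toNat : ℤ) = t₂ - t₁ := Int.toNat_of_nonneg (by omega)
      have h6 : (((t₂ - t₁).toNat : ℤ) : ℝ) = ((t₂ - t₁ : ℤ) : ℝ) := by rw [h5]
      rw [← h6]
      exact_mod_cast hc
    obtain ⟨hint, hbd⟩ := hPB F hF ρ r _ hρ hcount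
    -- Chebyshev
    have hsub : {E : PEnv | g < |supF F hF (eA E) - supF F hF (eB E)|} ⊆
        {E : PEnv | g ^ 2 ≤ (supF F hF (eA E) - supF F hF (eB E)) ^ 2} := by
      intro E hE
      simp only [Set.mem_ofPred_eq] at hE ⊢
      rw [← sq_abs (supF F hF (eA E) - supF F hF (eB E))]
      exact pow_le_pow_left₀ hg.le hE.le 2
    have hmark := mul_meas_ge_le_integral_of_nonneg (μ := PN q ρ)
      (f := fun E => (supF F hF (eA E) - supF F hF (eB E)) ^ 2)
      (ae_of_all _ fun E => sq_nonneg _) hint (g ^ 2)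
    have hreal : (PN q ρ).real {E : PEnv | g ^ 2 ≤ (supF F hF (eA E) - supF F hF (eB E)) ^ 2} ≤
        C * (r * ((t₂ - t₁ : ℤ) : ℝ)) / g ^ 2 := by
      rw [le_div_iff₀ (by positivity), mul_comm]
      exact hmark.trans hbd
    calc PN q ρ {E : PEnv | g < |supF F hF (eA E) - supF F hF (eB E)|}
        ≤ PN q ρ {E : PEnv | g ^ 2 ≤ (supF F hF (eA E) - supF F hF (eB E)) ^ 2} :=
          measure_mono hsub
      _ = ENNReal.ofReal ((PN q ρ).real
            {E : PEnv | g ^ 2 ≤ (supF F hF (eA E) - supF F hF (eB E)) ^ 2}) := by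
          rw [ofReal_measureReal]
      _ ≤ _ := ENNReal.ofReal_le_ofReal hreal
  · have hempty : ∀ ω : Env, {x | ∃ γ, Conn u v γ ∧ P γ ∧ x = wt ω u.1 v.1 γ} = ∅ := by
      intro ω
      ext x
      simp only [Set.mem_ofPred_eq, Set.mem_empty_iff_false, iff_false]
      rintro ⟨γ, h3, h4, _⟩
      exact hex ⟨γ, h3, h4⟩
    simp only [hempty, sub_self, abs_zero]
    have : {E : PEnv | g < 0} = ∅ := by
      ext E
      simp only [Set.mem_ofPred_eq, Set.mem_empty_iff_false, iff_false]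
      linarith
    rw [this, measure_empty]
    exact bot_le

end Pool.Agent.H97.E7
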