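import Pool.Agent.H97.ST.Targets

/-!
# E7: summation over the scales
-/

open MeasureTheory ProbabilityTheory Filter Topology
open scoped ENNReal

namespace Pool.Agent.H97.E7

open Pool.Agent.H99.NS Pool.Agent.H22.LPP Pool.Agent.H97.NF Pool.Agent.H97.ST

theorem pf_STAB (hW : T_WIN) (h1 : T_TEL) (h2 : T_FST) (h3 : T_STP) (h4 : T_LST) (h5 : T_HH)
    (h6 : T_SUM) (hL : B_LAMM) : T_STAB := by
  intro q hq0 hq1 hNT hREG hPALM hTOP
  obtain ⟨C1, c1, c1', s1, k1, hC1, hc1, hc1', H3⟩ := h3 q hq0 hq1 hNT hREG hPALM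
  obtain ⟨c2, s2, hc2, H4⟩ := h4 q hq0 hq1 hNT hREG hTOP
  set s' := max s1 s2 with hs'
  have hs1 : s1 ≤ s' := le_max_left _ _
  have hs2 : s2 ≤ s' := le_max_right _ _
  obtain ⟨C2, hC2, H4'⟩ := H4 s' hs2
  set c := min c1 c2 with hc
  set c' := min c1' 1 with hc'
  set C := max C1 C2 with hC
  have hc0 : 0 < c := lt_min hc1 hc2
  have hc0' : 0 < c' := lt_min hc1' one_pos
  have hc1le : c' ≤ 1 := min_le_right _ _
  have hC0 : 0 < C := hC1.trans_le (le_max_left _ _)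
  have hcc1 : c ≤ c1 := min_le_left _ _
  have hcc2 : c ≤ c2 := min_le_right _ _
  have hcc1' : c' ≤ c1' := min_le_left _ _
  intro η hη
  obtain ⟨n0, hn0, k3, H6⟩ := h6 c c' C s' hc0 hc0' hc1le hC0 (η / 3) (by linarith)
  set s := s' + 4 * n0 with hs
  obtain ⟨k2, H4''⟩ := H4' n0 s hn0 hs
  refine ⟨(1 / 16) ^ (40 * n0), by positivity, pow_le_one₀ (by norm_num) (by norm_num),
    max 1 (max k1 (max k2 k3)), le_max_left _ _, ?_⟩
  intro k hk r hr0 hr j hj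
  have hk1 : k1 ≤ k := (le_max_left _ _).trans ((le_max_right _ _).trans hk)
  have hk2 : k2 ≤ k :=
    (le_max_left _ _).trans ((le_max_right _ _).trans ((le_max_right _ _).trans hk))
  have hk3 : k3 ≤ k :=
    (le_max_right _ _).trans ((le_max_right _ _).trans ((le_max_right _ _).trans hk))
  obtain ⟨hfl, hi01, hbox, hsum⟩ := H6 k hk3
  obtain ⟨hhp, _, hrr, hrl⟩ := h5 c' n0 s k hc0' hc1le hn0 (hn0.trans hfl)
  have hhl : hh c' n0 s k (k - s) = n0 := by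
    unfold hh
    rw [Nat.sub_self, Nat.zero_div, add_zero]
    exact min_eq_left hfl
  have hhi : ∀ i, i + s ≤ k → i + 4 * hh c' n0 s k i + s' ≤ k := by
    intro i hi
    have e1 : hh c' n0 s k i ≤ n0 + (k - s - i) / 80 := min_le_left _ _
    omega
  have hr1 : r ≤ 1 := by
    refine hr.trans ?_
    have e1 : ((1 : ℝ) / 16) ^ (40 * n0) ≤ 1 := pow_le_one₀ (by norm_num) (by norm_num)
    have e2 : ((1 : ℝ) / 4) ^ k ≤ 1 := pow_le_one₀ (by norm_num) (by norm_num)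
    have e3 : (0 : ℝ) ≤ ((1 : ℝ) / 4) ^ k := by positivity
    nlinarith
  set i0 := k / 20 + 1 with hi0
  have hi1 : i0 ≤ k - s := by omega
  have hmeas : Measurable (fun ω => Lk k ω j) := (hL (oK k) (eK k) j).2.1
  have hT := h1 q r hr0 hr1 (fun ω => Lk k ω j) hmeas j i0 (k - s)
    (fun i => Rm (hh c' n0 s k i) i) hi1 (fun i => (hhp i).2.2.2.2)
  -- first term
  have hF : ∑' m : ℤ, PN q (fun _ => r)
      {E | Lk k (eA E) j ∈ Win i0 m ∧ ∃ y ∈ BoxW j i0 m (Rm (hh c' n0 s k i0) i0),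
        (E y).1 ≠ (E y).2} ≤ ENNReal.ofReal (η / 3) := by
    have hRm0 : (0 : ℤ) ≤ Rm (hh c' n0 s k i0) i0 := by unfold Rm; positivity
    refine (h2 q r hr0 hr1 (fun ω => Lk k ω j) hmeas j i0 _ hRm0).trans ?_
    refine ENNReal.ofReal_le_ofReal (le_trans ?_ hbox)
    have hRm : ((Rm (hh c' n0 s k i0) i0 : ℤ) : ℝ) ≤ 8 * 2 ^ k * 16 ^ i0 := by
      unfold Rm
      push_cast
      have : (2 : ℝ) ^ (hh c' n0 s k i0) ≤ 2 ^ k :=
        pow_le_pow_right₀ (by norm_num) (hhp i0).2.2.1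
      have h16 : (0 : ℝ) ≤ 16 ^ i0 := by positivity
      nlinarith
    have hb : (64 ^ i0 + 1 : ℝ) * (16 ^ i0 + 2 * ((Rm (hh c' n0 s k i0) i0 : ℤ) : ℝ)) ≤
        (64 ^ i0 + 1) * (16 ^ i0 + 2 * (8 * 2 ^ k * 16 ^ i0)) := by
      refine mul_le_mul_of_nonneg_left ?_ (by positivity)
      linarith
    have hb0 : (0 : ℝ) ≤ (64 ^ i0 + 1 : ℝ) * (16 ^ i0 + 2 * ((Rm (hh c' n0 s k i0) i0 : ℤ) : ℝ)) := by
      have : (0 : ℝ) ≤ ((Rm (hh c' n0 s k i0) i0 : ℤ) : ℝ) := by exact_mod_cast hRm0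
      positivity
    calc r * ((64 ^ i0 + 1) * (16 ^ i0 + 2 * ((Rm (hh c' n0 s k i0) i0 : ℤ) : ℝ)))
        ≤ ((1 / 16) ^ (40 * n0) * (1 / 4) ^ k) *
          ((64 ^ i0 + 1) * (16 ^ i0 + 2 * ((Rm (hh c' n0 s k i0) i0 : ℤ) : ℝ))) :=
          mul_le_mul_of_nonneg_right hr hb0
      _ ≤ ((1 / 16) ^ (40 * n0) * (1 / 4) ^ k) *
          ((64 ^ i0 + 1) * (16 ^ i0 + 2 * (8 * 2 ^ k * 16 ^ i0))) :=
          mul_le_mul_of_nonneg_left hb (by positivity)
  -- one term of the sum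
  set f : ℕ → ℝ := fun i => C * Real.exp (-(c * (hh c' n0 s k i : ℝ))) with hf
  have hf0 : ∀ i, 0 ≤ f i := fun i => by rw [hf]; positivity
  have hM : ∀ i ∈ Finset.Ico i0 (k - s), ∑' m : ℤ,
      PN q (rhoS r (BoxW j (i + 1) (m / 16) (Rm (hh c' n0 s k (i + 1)) (i + 1)) \
        BoxW j i m (Rm (hh c' n0 s k i) i)))
        {E | Lk k (eA E) j ∈ Win i m ∧ Lk k (eB E) j ≠ Lk k (eA E) j} ≤
      ENNReal.ofReal (f i) := by
    intro i hi
    rw [Finset.mem_Ico] at hi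
    have hp := hhp i
    have hhi' := hhi i (by omega)
    refine (H3 k hk1 j hj i (hh c' n0 s k i) (hh c' n0 s k (i + 1)) (by omega) (by omega)
      hp.1 hp.2.2.2.1 ?_ r hr0 (hrr r hr0 hr i (by omega))).trans ?_
    · refine hp.2.1.trans ?_
      exact mul_le_mul_of_nonneg_right hcc1' (Nat.cast_nonneg _)
    · refine ENNReal.ofReal_le_ofReal ?_
      rw [hf]
      refine mul_le_mul (le_max_left _ _) ?_ (Real.exp_pos _).le hC0.le
      rw [Real.exp_le_exp]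
      have : (0 : ℝ) ≤ (hh c' n0 s k i : ℝ) := Nat.cast_nonneg _
      nlinarith
  have hLs : ∑' m : ℤ, PN q (rhoS r (BoxW j (k - s) m (Rm (hh c' n0 s k (k - s)) (k - s)))ᶜ)
      {E | Lk k (eA E) j ∈ Win (k - s) m ∧ Lk k (eB E) j ≠ Lk k (eA E) j} ≤
      ENNReal.ofReal (f (k - s)) := by
    have hr' := hrl r hr0 hr
    rw [hf]
    simp only
    rw [hhl] at hr' ⊢
    refine (H4'' k hk2 j hj r hr0 hr').trans ?_
    refine ENNReal.ofReal_le_ofReal ?_
    refine mul_le_mul (le_max_right _ _) ?_ (Real.exp_pos _).le hC0.le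
    rw [Real.exp_le_exp]
    have : (0 : ℝ) ≤ (n0 : ℝ) := Nat.cast_nonneg _
    nlinarith
  have hsum2 : ∑ i ∈ Finset.Ico i0 (k - s), f i + f (k - s) ≤ η / 3 := by
    refine le_trans ?_ hsum
    rw [add_comm, ← Finset.sum_insert (by simp)]
    refine Finset.sum_le_sum_of_subset_of_nonneg ?_ fun i _ _ => hf0 i
    intro i hi
    rw [Finset.mem_insert, Finset.mem_Ico] at hi
    rw [Finset.mem_range]
    omega
  have htot : PN q (fun _ => r) {E | Lk k (eA E) j ≠ Lk k (eB E) j} ≤ ENNReal.ofReal η := by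
    refine hT.trans ?_
    calc _ ≤ ENNReal.ofReal (η / 3) + ∑ i ∈ Finset.Ico i0 (k - s), ENNReal.ofReal (f i) +
          ENNReal.ofReal (f (k - s)) := by
          refine add_le_add (add_le_add hF (Finset.sum_le_sum hM)) hLs
      _ = ENNReal.ofReal (η / 3) + ENNReal.ofReal (∑ i ∈ Finset.Ico i0 (k - s), f i + f (k - s)) := by
          rw [← ENNReal.ofReal_sum_of_nonneg (fun i _ => hf0 i), add_assoc,
            ← ENNReal.ofReal_add (Finset.sum_nonneg fun i _ => hf0 i) (hf0 _)]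
      _ ≤ ENNReal.ofReal (η / 3) + ENNReal.ofReal (η / 3) := by
          gcongr
      _ = ENNReal.ofReal (η / 3 + η / 3) := by
          rw [ENNReal.ofReal_add (by linarith) (by linarith)]
      _ ≤ ENNReal.ofReal η := ENNReal.ofReal_le_ofReal (by linarith)
  exact ENNReal.toReal_le_of_le_ofReal hη.le htot

end Pool.Agent.H97.E7
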