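import Pool.Agent.H97.ST.Targets

/-! Module SUM of MP_57ddd5_pr: sum over the scales. -/

namespace Pool.Agent.H97.E7.SUMX

open Pool.Agent.H97.ST Pool.Agent.H99.NS Pool.Agent.H22.LPP Pool.Agent.H97.NF Filter Topology

theorem sum_geo (q : ℝ) (hq0 : 0 ≤ q) (hq1 : q < 1) (k : ℕ) :
    ∑ i ∈ Finset.range (k + 1), q ^ (k - i) ≤ 1 / (1 - q) := by
  rw [← Finset.sum_range_reflect]
  have : ∀ j ∈ Finset.range (k + 1), q ^ (k - (k + 1 - 1 - j)) = q ^ j := by
    intro j hj
    rw [Finset.mem_range] at hj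
    congr 1
    omega
  rw [Finset.sum_congr rfl this]
  have h1 : 0 < 1 - q := by linarith
  rw [geom_sum_eq hq1.ne, ← neg_div_neg_eq]
  have h2 : 0 ≤ q ^ (k + 1) := by positivity
  rw [neg_sub, neg_sub]
  exact div_le_div_of_nonneg_right (by linarith) h1.le

theorem sum_one (c : ℝ) (hc : 0 < c) (s k : ℕ) :
    ∑ i ∈ Finset.range (k + 1), Real.exp (-(c * (((k - s - i) / 80 : ℕ) : ℝ))) ≤
      Real.exp (c + c * s / 80) * (1 / (1 - Real.exp (-(c / 80)))) := by
  have hq1 : Real.exp (-(c / 80)) < 1 := by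
    rw [Real.exp_lt_one_iff]
    linarith
  calc ∑ i ∈ Finset.range (k + 1), Real.exp (-(c * (((k - s - i) / 80 : ℕ) : ℝ)))
      ≤ ∑ i ∈ Finset.range (k + 1), Real.exp (c + c * s / 80) * Real.exp (-(c / 80)) ^ (k - i) := by
        apply Finset.sum_le_sum
        intro i _
        rw [← Real.exp_nat_mul, ← Real.exp_add, Real.exp_le_exp]
        have h1 : k - i ≤ 80 * ((k - s - i) / 80) + 80 + s := by omega
        have h2 : ((k - i : ℕ) : ℝ) ≤ 80 * (((k - s - i) / 80 : ℕ) : ℝ) + 80 + s := by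
          exact_mod_cast h1
        have h3 : c * ((k - i : ℕ) : ℝ) ≤ c * (80 * (((k - s - i) / 80 : ℕ) : ℝ) + 80 + s) :=
          mul_le_mul_of_nonneg_left h2 hc.le
        nlinarith
    _ = Real.exp (c + c * s / 80) *
        ∑ i ∈ Finset.range (k + 1), Real.exp (-(c / 80)) ^ (k - i) := by rw [Finset.mul_sum]
    _ ≤ _ := mul_le_mul_of_nonneg_left (sum_geo _ (Real.exp_pos _).le hq1 k) (Real.exp_pos _).le

theorem pf_SUM : T_SUM := by
  intro c c' C s₂ hc hc' hc1 hC η hη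
  set K : ℝ := Real.exp (c + c * (s₂ + 4) / 80) * (1 / (1 - Real.exp (-(c / 80)))) with hK
  have hq1 : Real.exp (-(c / 80)) < 1 := by
    rw [Real.exp_lt_one_iff]
    linarith
  have hKpos : 0 < K := by
    have : 0 < 1 - Real.exp (-(c / 80)) := by linarith
    positivity
  -- the choice of n₀
  obtain ⟨n, hn⟩ : ∃ n : ℕ, Real.exp (-(c / 2)) ^ n < η / 2 / (C * K) :=
    exists_pow_lt_of_lt_one (by positivity) (by rw [Real.exp_lt_one_iff]; linarith)
  have hn0 : C * (Real.exp (-(c * ((n + 1 : ℕ) : ℝ))) *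
      (Real.exp (c + c * ((s₂ + 4 * (n + 1) : ℕ) : ℝ) / 80) * (1 / (1 - Real.exp (-(c / 80)))))) ≤
      η / 2 := by
    have h1 : Real.exp (-(c * ((n + 1 : ℕ) : ℝ))) * Real.exp (c + c * ((s₂ + 4 * (n + 1) : ℕ) : ℝ) / 80) ≤
        Real.exp (-(c / 2)) ^ n * Real.exp (c + c * (s₂ + 4) / 80) := by
      rw [← Real.exp_nat_mul, ← Real.exp_add, ← Real.exp_add, Real.exp_le_exp]
      push_cast
      have : (0 : ℝ) ≤ n := Nat.cast_nonneg n
      nlinarith [mul_nonneg hc.le this]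
    have h2 : Real.exp (-(c / 2)) ^ n ≤ η / 2 / (C * K) := hn.le
    rw [le_div_iff₀ (by positivity)] at h2
    have hG : 0 < 1 / (1 - Real.exp (-(c / 80))) := by
      have : 0 < 1 - Real.exp (-(c / 80)) := by linarith
      positivity
    calc _ = C * ((Real.exp (-(c * ((n + 1 : ℕ) : ℝ))) *
          Real.exp (c + c * ((s₂ + 4 * (n + 1) : ℕ) : ℝ) / 80)) * (1 / (1 - Real.exp (-(c / 80))))) := by
          ring
      _ ≤ C * ((Real.exp (-(c / 2)) ^ n * Real.exp (c + c * (s₂ + 4) / 80)) *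
          (1 / (1 - Real.exp (-(c / 80))))) := by
          gcongr
      _ = Real.exp (-(c / 2)) ^ n * (C * K) := by
          rw [hK]
          ring
      _ ≤ η / 2 := h2
  refine ⟨n + 1, by omega, ?_⟩
  obtain ⟨s, hs⟩ : ∃ s, s = s₂ + 4 * (n + 1) := ⟨_, rfl⟩
  rw [← hs] at hn0 ⊢
  -- large k
  have hA : ∀ᶠ k : ℕ in atTop, ((n + 1 : ℕ) : ℝ) ≤ c' * k := by
    have : Tendsto (fun k : ℕ => c' * (k : ℝ)) atTop atTop :=
      Tendsto.const_mul_atTop hc' tendsto_natCast_atTop_atTop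
    exact this.eventually_ge_atTop _
  have hB : ∀ᶠ k : ℕ in atTop, k / 20 + 1 + s ≤ k := by
    filter_upwards [eventually_ge_atTop (2 * (s + 2))] with k hk
    omega
  have hCc : ∀ᶠ k : ℕ in atTop, 34816 * (1 / 2 : ℝ) ^ (k / 2) ≤ η := by
    obtain ⟨m, hm⟩ := exists_pow_lt_of_lt_one (show (0 : ℝ) < η / 34816 by positivity)
      (show (1 / 2 : ℝ) < 1 by norm_num)
    filter_upwards [eventually_ge_atTop (2 * m)] with k hk
    have h1 : (1 / 2 : ℝ) ^ (k / 2) ≤ (1 / 2) ^ m :=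
      pow_le_pow_of_le_one (by norm_num) (by norm_num) (by omega)
    have h2 := h1.trans hm.le
    rw [le_div_iff₀ (by norm_num)] at h2
    linarith
  have hD : ∀ᶠ k : ℕ in atTop,
      ((k : ℝ) + 1) * (C * (Real.exp c * Real.exp (-(c * c')) ^ k)) ≤ η / 2 := by
    have hr : Real.exp (-(c * c')) < 1 := by
      rw [Real.exp_lt_one_iff]
      have : 0 < c * c' := by positivity
      linarith
    have t1 := tendsto_self_mul_const_pow_of_lt_one (Real.exp_pos (-(c * c'))).le hr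
    have t2 := tendsto_pow_atTop_nhds_zero_of_lt_one (Real.exp_pos (-(c * c'))).le hr
    have t3 : Tendsto (fun k : ℕ => ((k : ℝ) + 1) * (C * (Real.exp c * Real.exp (-(c * c')) ^ k)))
        atTop (𝓝 0) := by
      have h := ((t1.add t2).const_mul (C * Real.exp c))
      simp only [add_zero, mul_zero] at h
      refine h.congr (fun k => ?_)
      ring
    exact (t3.eventually_le_const (by positivity))
  obtain ⟨k₀, hk₀⟩ := eventually_atTop.1 (hA.and (hB.and (hCc.and hD)))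
  refine ⟨k₀, fun k hk => ?_⟩
  obtain ⟨h1, h2, h3, h4⟩ := hk₀ k hk
  have hfl1 : n + 1 ≤ ⌊c' * k⌋₊ := Nat.le_floor h1
  refine ⟨hfl1, h2, ?_, ?_⟩
  · set m := k / 20 with hm
    have hp1 : (1 / 16 : ℝ) ^ (40 * (n + 1)) ≤ 1 := pow_le_one₀ (by norm_num) (by norm_num)
    have e1 : (64 : ℝ) ^ (m + 1) + 1 ≤ 128 * 64 ^ m := by
      have : (1 : ℝ) ≤ 64 ^ m := one_le_pow₀ (by norm_num)
      rw [pow_succ]
      linarith
    have e2 : (16 : ℝ) ^ (m + 1) + 2 * (8 * 2 ^ k * 16 ^ (m + 1)) ≤ 272 * 16 ^ m * 2 ^ k := by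
      have a1 : (1 : ℝ) ≤ 2 ^ k := one_le_pow₀ (by norm_num)
      have a2 : (0 : ℝ) < 16 ^ m := by positivity
      rw [pow_succ]
      nlinarith [mul_le_mul_of_nonneg_left a1 a2.le]
    have e3 : ((64 : ℝ) ^ (m + 1) + 1) * (16 ^ (m + 1) + 2 * (8 * 2 ^ k * 16 ^ (m + 1))) ≤
        34816 * ((2 : ℝ) ^ (k / 2) * 2 ^ k) := by
      calc _ ≤ (128 * 64 ^ m) * (272 * 16 ^ m * 2 ^ k) :=
            mul_le_mul e1 e2 (by positivity) (by positivity)
        _ = 34816 * ((2 : ℝ) ^ (10 * m) * 2 ^ k) := by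
            have : (2 : ℝ) ^ (10 * m) = 64 ^ m * 16 ^ m := by
              rw [pow_mul, ← mul_pow]; norm_num
            rw [this]; ring
        _ ≤ _ := by
            have : (2 : ℝ) ^ (10 * m) ≤ 2 ^ (k / 2) := pow_le_pow_right₀ (by norm_num) (by omega)
            have h0 : (0 : ℝ) < 2 ^ k := by positivity
            nlinarith [mul_le_mul_of_nonneg_right this h0.le]
    calc (1 / 16 : ℝ) ^ (40 * (n + 1)) * (1 / 4) ^ k * ((64 ^ (m + 1) + 1) *
          (16 ^ (m + 1) + 2 * (8 * 2 ^ k * 16 ^ (m + 1))))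
        ≤ 1 * (1 / 4) ^ k * (34816 * ((2 : ℝ) ^ (k / 2) * 2 ^ k)) := by
          apply mul_le_mul _ e3 (by positivity) (by positivity)
          exact mul_le_mul_of_nonneg_right hp1 (by positivity)
      _ ≤ 34816 * (1 / 2 : ℝ) ^ (k / 2) := by
          have f1 : (1 / 4 : ℝ) ^ k * 2 ^ k = (1 / 2) ^ k := by rw [← mul_pow]; norm_num
          have f2 : (1 / 2 : ℝ) ^ k ≤ (1 / 2) ^ (k / 2 + k / 2) :=
            pow_le_pow_of_le_one (by norm_num) (by norm_num) (by omega)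
          have f3 : (1 / 2 : ℝ) ^ (k / 2 + k / 2) * 2 ^ (k / 2) = (1 / 2) ^ (k / 2) := by
            rw [pow_add, mul_assoc, ← mul_pow]; norm_num
          have f4 : (0 : ℝ) < 2 ^ (k / 2) := by positivity
          calc 1 * (1 / 4 : ℝ) ^ k * (34816 * ((2 : ℝ) ^ (k / 2) * 2 ^ k))
              = 34816 * (((1 / 4 : ℝ) ^ k * 2 ^ k) * 2 ^ (k / 2)) := by ring
            _ = 34816 * ((1 / 2 : ℝ) ^ k * 2 ^ (k / 2)) := by rw [f1]
            _ ≤ 34816 * ((1 / 2 : ℝ) ^ (k / 2 + k / 2) * 2 ^ (k / 2)) := by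
                apply mul_le_mul_of_nonneg_left _ (by norm_num)
                exact mul_le_mul_of_nonneg_right f2 f4.le
            _ = 34816 * (1 / 2 : ℝ) ^ (k / 2) := by rw [f3]
      _ ≤ η := h3
  · have hsplit : ∀ i, Real.exp (-(c * (hh c' (n + 1) s k i : ℝ))) ≤
        Real.exp (-(c * ((n + 1 : ℕ) : ℝ))) * Real.exp (-(c * (((k - s - i) / 80 : ℕ) : ℝ))) +
          Real.exp (-(c * (⌊c' * k⌋₊ : ℝ))) := by
      intro i
      unfold hh
      rcases le_total (n + 1 + (k - s - i) / 80) ⌊c' * k⌋₊ with h | h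
      · rw [min_eq_left h, ← Real.exp_add]
        have : -(c * ((n + 1 + (k - s - i) / 80 : ℕ) : ℝ)) =
            -(c * ((n + 1 : ℕ) : ℝ)) + -(c * (((k - s - i) / 80 : ℕ) : ℝ)) := by
          push_cast; ring
        rw [this]
        linarith [Real.exp_pos (-(c * (⌊c' * k⌋₊ : ℝ)))]
      · rw [min_eq_right h]
        have : 0 < Real.exp (-(c * ((n + 1 : ℕ) : ℝ))) *
          Real.exp (-(c * (((k - s - i) / 80 : ℕ) : ℝ))) := by positivity
        linarith
    have hfl : Real.exp (-(c * (⌊c' * k⌋₊ : ℝ))) ≤ Real.exp c * Real.exp (-(c * c')) ^ k := by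
      rw [← Real.exp_nat_mul, ← Real.exp_add, Real.exp_le_exp]
      have : c' * k - 1 < (⌊c' * k⌋₊ : ℝ) := Nat.sub_one_lt_floor _
      nlinarith
    calc ∑ i ∈ Finset.range (k + 1), C * Real.exp (-(c * (hh c' (n + 1) s k i : ℝ)))
        ≤ ∑ i ∈ Finset.range (k + 1), (C * (Real.exp (-(c * ((n + 1 : ℕ) : ℝ))) *
            Real.exp (-(c * (((k - s - i) / 80 : ℕ) : ℝ)))) +
            C * (Real.exp c * Real.exp (-(c * c')) ^ k)) := by
          apply Finset.sum_le_sum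
          intro i _
          rw [← mul_add]
          exact mul_le_mul_of_nonneg_left ((hsplit i).trans (by linarith)) hC.le
      _ = C * (Real.exp (-(c * ((n + 1 : ℕ) : ℝ))) *
            ∑ i ∈ Finset.range (k + 1), Real.exp (-(c * (((k - s - i) / 80 : ℕ) : ℝ)))) +
            ((k : ℝ) + 1) * (C * (Real.exp c * Real.exp (-(c * c')) ^ k)) := by
          rw [Finset.sum_add_distrib, Finset.mul_sum, Finset.mul_sum, Finset.sum_const,
            Finset.card_range, nsmul_eq_mul]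
          push_cast
          ring
      _ ≤ η / 2 + η / 2 := by
          apply add_le_add _ h4
          refine le_trans ?_ hn0
          apply mul_le_mul_of_nonneg_left _ hC.le
          exact mul_le_mul_of_nonneg_left (sum_one c hc s k) (Real.exp_pos _).le
      _ = η := by ring

end Pool.Agent.H97.E7.SUMX
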