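import Pool.Agent.H97.E7.COAL
import Pool.Agent.H97.E7.FAM
import Pool.Agent.H97.E7.STAB
import Pool.Agent.H97.E7.SUM
import Pool.Agent.H30.E7.AEQ
import Pool.Agent.H30.E7.DFAR
import Pool.Agent.H30.E7.FIMP
import Pool.Agent.H30.E7.FST
import Pool.Agent.H30.E7.IST
import Pool.Agent.H30.E7.LAW
import Pool.Agent.H30.E7.TRF
import Pool.Agent.H42.E7.HH
import Pool.Agent.H42.E7.WIN
import Pool.Agent.H74.ST.DUP
import Pool.Agent.H74.ST.STP
import Pool.Agent.H74.ST.LST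
import Pool.Agent.H19.E7.CLO
import Pool.Agent.H19.E7.TEL
import Pool.Agent.H2.E7.DET7
import Pool.Agent.H97.NF.All
import Pool.Agent.H22.LPP.All

/-!
# Part E7 (stability of the leftmost geodesic): assembly

From the four inputs `I_NT` (near ties are rare, Part E6), `I_REG`, `I_PALM`, `I_TOP` (Part D) the
stability `D_ST` of the leftmost geodesic and the input `I_ST` of Part C.
-/

open MeasureTheory ProbabilityTheory Filter Topology
open scoped ENNReal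

namespace Pool.Agent.H97.E7

open Pool.Agent.H99.NS Pool.Agent.H22.LPP Pool.Agent.H97.NF Pool.Agent.H97.ST
open Pool.Agent.H95.INS (I_ST)

theorem a_WIN : T_WIN := H42.E7.pf_WIN
theorem a_FIMP : T_FIMP := H30.E7.FIMP.pf_FIMP
theorem a_LAW : T_LAW := H30.E7.LAW.pf_LAW
theorem a_AEQ : T_AEQ := H30.E7.AEQ.pf_AEQ
theorem a_TEL : T_TEL := H19.E7.pf_TEL a_WIN a_LAW
theorem a_FST : T_FST := H30.E7.FST.pf_FST a_WIN
theorem a_COAL : T_COAL := pf_COAL a_lam a_lamr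
theorem a_DFAR : T_DFAR := H30.E7.DFAR.pf_DFAR a_lam
theorem a_DUP : T_DUP := H74.ST.pf_DUP a_lam
theorem a_DDN : T_DDN := H74.ST.pf_DDN a_lam
theorem a_DET7 : T_DET7 := H2.E7.pf_DET7 a_COAL a_DFAR a_DUP a_DDN
theorem a_FAM : T_FAM := pf_FAM
theorem a_CHB : T_CHB := pf_CHB a_FAM a_PBI
theorem a_CLO : T_CLO := H19.E7.pf_CLO a_CHB
theorem a_TRF : T_TRF := H30.E7.TRF.pf_TRF a_WIN
theorem a_STP : T_STP := H74.STP.pf_STP a_WIN a_FIMP a_AEQ a_DET7 a_CLO a_TRF a_lamm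
theorem a_LST : T_LST := H74.STP.pf_LST a_WIN a_AEQ a_DET7 a_CLO a_TRF a_lamm
theorem a_SUM : T_SUM := SUMX.pf_SUM
theorem a_HH : T_HH := H42.E7.pf_HH
theorem a_STAB : T_STAB := pf_STAB a_WIN a_TEL a_FST a_STP a_LST a_HH a_SUM a_lamm
theorem a_IST : T_IST := H30.E7.IST.pf_IST

/-- PART E7: stability of the leftmost geodesic at every level of the middle half. -/
theorem e7D {q : ℝ} (hq0 : 0 < q) (hq1 : q < 1) (h1 : I_NT q) (h2 : I_REG q) (h3 : I_PALM q)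
    (h4 : I_TOP q) : D_ST q :=
  a_STAB q hq0 hq1 h1 h2 h3 h4

/-- PART E7: the input `I_ST` of Part C. -/
theorem e7 {q : ℝ} (hq0 : 0 < q) (hq1 : q < 1) (h1 : I_NT q) (h2 : I_REG q) (h3 : I_PALM q)
    (h4 : I_TOP q) : I_ST q :=
  a_IST q hq0 hq1 (e7D hq0 hq1 h1 h2 h3 h4)

end Pool.Agent.H97.E7
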