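import Pool.Agent.H97.ST.Targets

/-!
# E7: coalescence of leftmost geodesics
-/

open MeasureTheory ProbabilityTheory Filter Topology
open scoped ENNReal

namespace Pool.Agent.H97.E7

open Pool.Agent.H99.NS Pool.Agent.H22.LPP Pool.Agent.H97.NF Pool.Agent.H97.ST

theorem pf_COAL (h1 : B_LAM) (h2 : B_LAMR) : T_COAL := by
  intro A B o e t₁ t₂ j hR ho h1j hj2 he hp1 hp2 hA hB
  have ht12 : t₁ ≤ t₂ := h1j.trans hj2
  obtain ⟨⟨hcA, hwA⟩, hlA⟩ := h1 A o e hR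
  obtain ⟨⟨hcB, hwB⟩, hlB⟩ := h1 B o e hR
  set u : Site := (t₁, Lam A o e t₁) with hu
  set v : Site := (t₂, Lam A o e t₂) with hv
  have huB : u = (t₁, Lam B o e t₁) := by rw [hu, hp1]
  have hvB : v = (t₂, Lam B o e t₂) := by rw [hv, hp2]
  have hRuv : Reach u v := hcA.reach_mid ho ht12 he
  have eA' : ∀ r, t₁ ≤ r → r ≤ t₂ → Lam A u v r = Lam A o e r := fun r hr1 hr2 =>
    h2 A o e hR t₁ t₂ ho ht12 he r hr1 hr2
  have eB' : ∀ r, t₁ ≤ r → r ≤ t₂ → Lam B u v r = Lam B o e r := fun r hr1 hr2 => by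
    rw [huB, hvB]
    exact h2 B o e hR t₁ t₂ ho ht12 he r hr1 hr2
  obtain ⟨⟨cA, wA⟩, lA⟩ := h1 A u v hRuv
  obtain ⟨⟨cB, wB⟩, lB⟩ := h1 B u v hRuv
  have huv : u.1 ≤ v.1 := ht12
  -- weights agree along both paths
  have k1 : wt A u.1 v.1 (Lam A u v) = wt B u.1 v.1 (Lam A u v) := by
    apply wt_congr
    intro r hr1 hr2
    rw [eA' r (le_of_lt hr1) hr2]
    exact hA r hr1 hr2
  have k2 : wt A u.1 v.1 (Lam B u v) = wt B u.1 v.1 (Lam B u v) := by
    apply wt_congr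
    intro r hr1 hr2
    rw [eB' r (le_of_lt hr1) hr2]
    exact hB r hr1 hr2
  have m1 := le_T A huv cB
  have m2 := le_T B huv cA
  -- both are geodesics of both environments
  have gB : Geod A u v (Lam B u v) := ⟨cB, by linarith⟩
  have gA : Geod B u v (Lam A u v) := ⟨cA, by linarith⟩
  have n1 := lA _ gB j h1j hj2
  have n2 := lB _ gA j h1j hj2
  rw [eA' j h1j hj2, eB' j h1j hj2] at n1 n2
  exact le_antisymm n1 n2

end Pool.Agent.H97.E7
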